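import Pool.Agent.H979.DE.Stm

/-!
# Project DE (helper979), job SQ (helper396): the square at a record
-/

set_option autoImplicit false

namespace Pool.Agent.H396

open MeasureTheory Finset Filter Pool.Agent.H41.Derrw Pool.Agent.H979.DE

namespace DESQ

section

variable {d : ℕ}

/-- the square with the corner `a` in the directions `ε e_i` and `e_j` -/
def q (a : Fin d → ℤ) (i j : Fin d) (ε : ℤ) (t : ℕ) : Fin d → ℤ := fun k =>
  a k + (if k = i ∧ (t % 4 = 1 ∨ t % 4 = 2) then ε else 0) + (if k = j ∧ 2 ≤ t % 4 then 1 else 0)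

theorem q_at_i (a : Fin d → ℤ) {i j : Fin d} (hij : i ≠ j) (ε : ℤ) (t : ℕ) :
    q a i j ε t i = a i + (if t % 4 = 1 ∨ t % 4 = 2 then ε else 0) := by
  unfold q
  have h1 : ¬ (i = j ∧ 2 ≤ t % 4) := fun h => hij h.1
  rw [if_neg h1, add_zero]
  simp only [true_and]

theorem q_at_j (a : Fin d → ℤ) {i j : Fin d} (hij : i ≠ j) (ε : ℤ) (t : ℕ) :
    q a i j ε t j = a j + (if 2 ≤ t % 4 then 1 else 0) := by
  unfold q
  have h1 : ¬ (j = i ∧ (t % 4 = 1 ∨ t % 4 = 2)) := fun h => hij h.1.symm
  rw [if_neg h1, add_zero]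
  simp only [true_and]

theorem q_eq (a : Fin d → ℤ) {i j : Fin d} (hij : i ≠ j) {ε : ℤ} (hε : ε ≠ 0) (s t : ℕ) :
    q a i j ε s = q a i j ε t ↔ s % 4 = t % 4 := by
  constructor
  · intro h
    have h1 := congrFun h i
    have h2 := congrFun h j
    rw [q_at_i a hij, q_at_i a hij] at h1
    rw [q_at_j a hij, q_at_j a hij] at h2
    have h3 := add_left_cancel h1
    have h4 := add_left_cancel h2
    have hs : s % 4 < 4 := Nat.mod_lt _ (by norm_num)
    have ht : t % 4 < 4 := Nat.mod_lt _ (by norm_num)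
    split_ifs at h3 h4 <;> omega
  · intro h
    unfold q
    rw [h]

theorem q_zero (a : Fin d → ℤ) (i j : Fin d) (ε : ℤ) : q a i j ε 0 = a := by
  funext k
  unfold q
  simp

theorem q_adj (a : Fin d → ℤ) {i j : Fin d} {ε : ℤ} (hε : ε = 1 ∨ ε = -1) (t : ℕ) :
    (Zd d).Adj (q a i j ε t) (q a i j ε (t + 1)) := by
  show ∑ k, |q a i j ε t k - q a i j ε (t + 1) k| = 1
  have habs : |ε| = 1 := by rcases hε with h | h <;> rw [h] <;> rfl
  have h4 : t % 4 = 0 ∨ t % 4 = 1 ∨ t % 4 = 2 ∨ t % 4 = 3 := by omega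
  rcases h4 with h | h | h | h
  · have h' : (t + 1) % 4 = 1 := by omega
    have h1 : ∀ k, |q a i j ε t k - q a i j ε (t + 1) k| = if k = i then 1 else 0 := by
      intro k
      unfold q
      rw [h, h']
      by_cases hk : k = i
      · simp [hk, habs]
      · simp [hk]
    rw [Finset.sum_congr rfl fun k _ => h1 k, Finset.sum_ite_eq' univ i, if_pos (mem_univ i)]
  · have h' : (t + 1) % 4 = 2 := by omega
    have h1 : ∀ k, |q a i j ε t k - q a i j ε (t + 1) k| = if k = j then 1 else 0 := by
      intro k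
      unfold q
      rw [h, h']
      by_cases hk : k = j
      · simp [hk]
      · simp [hk]
    rw [Finset.sum_congr rfl fun k _ => h1 k, Finset.sum_ite_eq' univ j, if_pos (mem_univ j)]
  · have h' : (t + 1) % 4 = 3 := by omega
    have h1 : ∀ k, |q a i j ε t k - q a i j ε (t + 1) k| = if k = i then 1 else 0 := by
      intro k
      unfold q
      rw [h, h']
      by_cases hk : k = i
      · simp [hk, habs]
      · simp [hk]
    rw [Finset.sum_congr rfl fun k _ => h1 k, Finset.sum_ite_eq' univ i, if_pos (mem_univ i)]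
  · have h' : (t + 1) % 4 = 0 := by omega
    have h1 : ∀ k, |q a i j ε t k - q a i j ε (t + 1) k| = if k = j then 1 else 0 := by
      intro k
      unfold q
      rw [h, h']
      by_cases hk : k = j
      · simp [hk]
      · simp [hk]
    rw [Finset.sum_congr rfl fun k _ => h1 k, Finset.sum_ite_eq' univ j, if_pos (mem_univ j)]

theorem cross_add {V : Type} [DecidableEq V] (w : ℕ → V) (n T : ℕ) (b z : V) :
    cross w (n + T) b z = cross w n b z + ∑ t ∈ range T,
      ((if w (n + t) = b ∧ w (n + t + 1) = z then 1 else 0) -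
      (if w (n + t) = z ∧ w (n + t + 1) = b then 1 else 0)) := by
  unfold cross
  rw [sum_range_add]

end

end DESQ

open DESQ in
theorem de_sq : S_SQ := by
  intro d hd x n hval hrec
  obtain ⟨i, hi⟩ := hrec
  obtain ⟨j, hij⟩ : ∃ j : Fin d, i ≠ j := by
    by_cases h0 : i.val = 0
    · exact ⟨⟨1, by omega⟩, fun h => by
        have := congrArg Fin.val h
        rw [h0] at this
        exact absurd this (by norm_num)⟩
    · exact ⟨⟨0, by omega⟩, fun h => h0 (congrArg Fin.val h)⟩
  obtain ⟨ε, hε, hlt⟩ : ∃ ε : ℤ, (ε = 1 ∨ ε = -1) ∧ ∀ k < n, ε * x k i < ε * x n i := by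
    rcases hi with h | h
    · exact ⟨1, Or.inl rfl, fun k hk => by rw [one_mul, one_mul]; exact h k hk⟩
    · exact ⟨-1, Or.inr rfl, fun k hk => by
        have := h k hk
        linarith⟩
  have hε0 : ε ≠ 0 := by rcases hε with h | h <;> rw [h] <;> norm_num
  have hεε : ε * ε = 1 := by rcases hε with h | h <;> rw [h] <;> norm_num
  obtain ⟨u, hu⟩ : ∃ u : ℕ → Fin d → ℤ, u = q (x n) i j ε := ⟨_, rfl⟩
  have huu : ∀ s t, u s = u t ↔ s % 4 = t % 4 := by
    intro s t
    rw [hu]
    exact q_eq (x n) hij hε0 s t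
  have hu0 : u 0 = x n := by rw [hu]; exact q_zero _ _ _ _
  have hadj : ∀ t, (Zd d).Adj (u t) (u (t + 1)) := by
    intro t
    rw [hu]
    exact q_adj (x n) hε t
  have hxu : ∀ k < n, ∀ t, x k ≠ u t := by
    intro k hk t h
    have h1 := hlt k hk
    have h2 : x k i = x n i + (if t % 4 = 1 ∨ t % 4 = 2 then ε else 0) := by
      rw [h, hu, q_at_i _ hij]
    rw [h2, mul_add] at h1
    split_ifs at h1
    · rw [hεε] at h1
      omega
    · rw [mul_zero, add_zero] at h1
      exact lt_irrefl _ h1
  -- the crossing numbers up to time `n`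
  have hc0 : ∀ w : ℕ → Fin d → ℤ, (∀ k ≤ n, w k = x k) → ∀ r z, cross w n (u r) z ≤ 0 := by
    intro w hw r z
    unfold cross
    refine Finset.sum_nonpos fun k hk => ?_
    rw [mem_range] at hk
    have h1 : ¬ (w k = u r ∧ w (k + 1) = z) := fun h => hxu k hk r (by rw [← hw k hk.le, h.1])
    rw [if_neg h1]
    split_ifs <;> norm_num
  have hc1 : ∀ w : ℕ → Fin d → ℤ, (∀ k ≤ n, w k = x k) → ∀ r t, cross w n (u r) (u t) = 0 := by
    intro w hw r t
    unfold cross
    refine Finset.sum_eq_zero fun k hk => ?_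
    rw [mem_range] at hk
    have h1 : ¬ (w k = u r ∧ w (k + 1) = u t) := fun h => hxu k hk r (by rw [← hw k hk.le, h.1])
    have h2 : ¬ (w k = u t ∧ w (k + 1) = u r) := fun h => hxu k hk t (by rw [← hw k hk.le, h.1])
    rw [if_neg h1, if_neg h2, sub_zero]
  -- the path around the square
  have hA : ∀ (w : ℕ → Fin d → ℤ) (T : ℕ), (∀ k ≤ n, w k = x k) → (∀ t ≤ T, w (n + t) = u t) →
      ∀ z, z ≠ u (T + 1) → cross w (n + T) (u T) z ≤ 0 := by
    intro w T hw hwT z hz
    rw [cross_add]
    refine add_nonpos (hc0 w hw T z) (Finset.sum_nonpos fun t ht => ?_)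
    rw [mem_range] at ht
    have h1 : ¬ (w (n + t) = u T ∧ w (n + t + 1) = z) := by
      rintro ⟨h2, h3⟩
      rw [hwT t ht.le, huu] at h2
      rw [add_assoc, hwT (t + 1) ht] at h3
      apply hz
      rw [← h3, huu]
      omega
    rw [if_neg h1]
    split_ifs <;> norm_num
  obtain ⟨y, hy⟩ : ∃ y : ℕ → Fin d → ℤ, y = fun k => if k ≤ n then x k else u (k - n) := ⟨_, rfl⟩
  have hyx : ∀ k ≤ n, y k = x k := by
    intro k hk
    rw [hy]
    exact if_pos hk
  have hyu : ∀ t, y (n + t) = u t := by
    intro t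
    rw [hy]
    rcases Nat.eq_zero_or_pos t with h | h
    · subst h
      show (if n + 0 ≤ n then x (n + 0) else u (n + 0 - n)) = u 0
      rw [Nat.add_zero, if_pos le_rfl, hu0]
    · show (if n + t ≤ n then x (n + t) else u (n + t - n)) = u t
      rw [if_neg (by omega), Nat.add_sub_cancel_left]
  refine ⟨y, hyx, ?_, ?_, ?_, (range 4).image u, ?_, ?_⟩
  · intro k hk
    rcases Nat.lt_or_ge k n with h | h
    · rw [hyx k h.le, hyx (k + 1) h]
      exact hval k h
    · obtain ⟨t, rfl⟩ := Nat.exists_eq_add_of_le h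
      rw [hyu, add_assoc, hyu]
      exact hadj t
  · rintro k hk1 hk2 ⟨z, -, hz⟩
    obtain ⟨s, rfl⟩ := Nat.exists_eq_add_of_le hk1
    rw [hyu, cross_add] at hz
    have h1 := hc0 y hyx s z
    have h2 : ∑ t ∈ range s, ((if y (n + t) = u s ∧ y (n + t + 1) = z then (1 : ℤ) else 0) -
        (if y (n + t) = z ∧ y (n + t + 1) = u s then 1 else 0)) ≤ 0 := by
      refine Finset.sum_nonpos fun t ht => ?_
      rw [mem_range] at ht
      have h3 : ¬ (y (n + t) = u s ∧ y (n + t + 1) = z) := by
        rintro ⟨h4, -⟩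
        rw [hyu, huu] at h4
        omega
      rw [if_neg h3]
      split_ifs <;> norm_num
    linarith
  · refine ⟨u 1, ?_, ?_⟩
    · rw [hyu, (huu 4 0).2 rfl]
      exact hadj 0
    · rw [hyu, cross_add, hc1 y hyx, zero_add]
      simp only [sum_range_succ, sum_range_zero, add_assoc, hyu, huu]
      norm_num
  · rw [card_image_of_injOn, card_range]
    intro s hs t ht hst
    rw [huu] at hst
    rw [coe_range, Set.mem_Iio] at hs ht
    omega
  · rintro w ⟨hw1, hw2⟩
    have hwx : ∀ k ≤ n, w k = x k := fun k hk => (hw1 k (by omega)).trans (hyx k hk)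
    have hmem : ∀ t, u t ∈ (range 4).image u := by
      intro t
      rw [mem_image]
      exact ⟨t % 4, mem_range.2 (Nat.mod_lt _ (by norm_num)), by rw [huu]; omega⟩
    have hT : ∀ T, ∀ t ≤ T, w (n + t) = u t := by
      intro T
      induction T with
      | zero =>
        intro t ht
        rw [hw1 (n + t) (by omega), hyu]
      | succ T ih =>
        intro t ht
        rcases Nat.lt_or_ge T 4 with h4 | h4
        · rw [hw1 (n + t) (by omega), hyu]
        · rcases Nat.lt_or_ge T t with h | h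
          · have h5 : t = T + 1 := by omega
            subst h5
            have hreg : 0 < cross w (n + T) (w (n + T)) (w (n + T + 1)) := by
              refine hw2 (n + T) (by omega) fun k hk1 hk2 => ?_
              obtain ⟨s, rfl⟩ := Nat.exists_eq_add_of_le (show n ≤ k by omega)
              rw [ih s (by omega)]
              exact hmem s
            rw [ih T le_rfl] at hreg
            by_contra hne
            exact absurd (hA w T hwx ih _ hne) (not_le.2 hreg)
          · exact ih t h
    refine ⟨4, fun r => u r.val, ⟨by norm_num, ?_, ?_⟩, n, 0, fun t => ?_⟩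
    · intro r r' h
      have h1 := (huu _ _).1 h
      have h2 := ZMod.val_lt r
      have h3 := ZMod.val_lt r'
      rw [Nat.mod_eq_of_lt h2, Nat.mod_eq_of_lt h3] at h1
      exact ZMod.val_injective 4 h1
    · intro r
      have h1 : u (r + 1).val = u (r.val + 1) := by
        rw [huu, ZMod.val_add, ZMod.val_one_eq_one_mod]
        omega
      show (Zd d).Adj (u r.val) (u (r + 1).val)
      rw [h1]
      exact hadj _
    · rw [hT t t le_rfl, zero_add]
      show u t = u ((t : ZMod 4)).val
      rw [huu, ZMod.val_natCast]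
      omega

end Pool.Agent.H396
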