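import Pool.Agent.H676.ED.Stm

/-!
# Project ED (helper676), job SMP (helper396): sampling, second moment
-/

set_option autoImplicit false

namespace Pool.Agent.H396.ED_SMP

open Finset

section

variable {ι Λ : Type} [Fintype ι] [DecidableEq ι] [Fintype Λ]

/-- resampling one coordinate -/
theorem resample (c : ι) (G : (ι → Λ) → ℝ) :
    ∑ b : ι → Λ, ∑ p : Λ, G (Function.update b c p) = (Fintype.card Λ : ℝ) * ∑ b, G b := by
  rw [← Fintype.sum_prod_type' (f := fun (b : ι → Λ) (p : Λ) => G (Function.update b c p))]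
  have e : ∑ z : (ι → Λ) × Λ, G (Function.update z.1 c z.2) = ∑ z : (ι → Λ) × Λ, G z.1 := by
    have hinv : ∀ z : (ι → Λ) × Λ, (Function.update (Function.update z.1 c z.2) c (z.1 c),
        (Function.update z.1 c z.2) c) = z := by
      rintro ⟨b, p⟩
      simp
    let σ : (ι → Λ) × Λ ≃ (ι → Λ) × Λ :=
      { toFun := fun z => (Function.update z.1 c z.2, z.1 c)
        invFun := fun z => (Function.update z.1 c z.2, z.1 c)
        left_inv := hinv
        right_inv := hinv }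
    exact Fintype.sum_equiv σ _ _ fun z => rfl
  rw [e, Fintype.sum_prod_type]
  simp only [sum_const, card_univ, nsmul_eq_mul]
  rw [← mul_sum]

/-- resampling two coordinates -/
theorem resample2 {c c' : ι} (hc : c ≠ c') (f : Λ → Λ → ℝ) (g : (ι → Λ) → ℝ)
    (h1 : ∀ b p, g (Function.update b c p) = g b) (h2 : ∀ b p, g (Function.update b c' p) = g b) :
    (Fintype.card Λ : ℝ) ^ 2 * ∑ b : ι → Λ, f (b c) (b c') * g b =
      (∑ p, ∑ q, f p q) * ∑ b, g b := by
  have e1 := resample c' (fun b => f (b c) (b c') * g b)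
  have e2 := resample c (fun b => ∑ q, f (b c) q * g b)
  have e3 : ∀ (b : ι → Λ) (q : Λ), f (Function.update b c' q c) (Function.update b c' q c') *
      g (Function.update b c' q) = f (b c) q * g b := by
    intro b q
    rw [Function.update_of_ne hc, Function.update_self, h2]
  have e4 : ∀ (b : ι → Λ) (p : Λ), (∑ q, f (Function.update b c p c) q *
      g (Function.update b c p)) = ∑ q, f p q * g b := by
    intro b p
    rw [Function.update_self, h1]
  simp only [e3] at e1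
  simp only [e4] at e2
  rw [sq, mul_assoc, ← e1, ← e2, mul_sum]
  refine sum_congr rfl fun b _ => ?_
  rw [sum_mul]
  refine sum_congr rfl fun p _ => ?_
  rw [sum_mul]

end

/-- the covariances -/
theorem cov {F m : ℕ} {Λ : Type} [Fintype Λ] [Nonempty Λ] (k : Λ → Λ → ℝ)
    (hk : ∀ a b, |k a b| ≤ 1) (μ : ℝ) (hμ : μ = (∑ p, ∑ q, k p q) / (Fintype.card Λ : ℝ) ^ 2)
    {x y : Fin F} (hxy : x ≠ y) (i i' j j' : Fin m) :
    ∑ b : Fin F × Fin m → Λ, (k (b (x, i)) (b (y, j)) - μ) * (k (b (x, i')) (b (y, j')) - μ) ≤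
      ((if i = i' then (1 : ℝ) else 0) + (if j = j' then (1 : ℝ) else 0)) *
        (Fintype.card (Fin F × Fin m → Λ) : ℝ) := by
  classical
  have hN : (0 : ℝ) < (Fintype.card Λ : ℝ) := by exact_mod_cast Fintype.card_pos
  have hN2 : (0 : ℝ) < (Fintype.card Λ : ℝ) ^ 2 := pow_pos hN 2
  have hμ2 : ∑ p, ∑ q, k p q = (Fintype.card Λ : ℝ) ^ 2 * μ := by
    rw [hμ]
    field_simp
  have hA : (0 : ℝ) ≤ (Fintype.card (Fin F × Fin m → Λ) : ℝ) := Nat.cast_nonneg _
  have hz : ∑ p, ∑ q, (k p q - μ) = 0 := by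
    simp only [sum_sub_distrib, sum_const, card_univ, nsmul_eq_mul]
    rw [hμ2]
    ring
  have hsq : ∑ p, ∑ q, (k p q - μ) ^ 2 ≤ (Fintype.card Λ : ℝ) ^ 2 := by
    have h1 : ∑ p, ∑ q, (k p q - μ) ^ 2 = ∑ p, ∑ q, k p q ^ 2 - (Fintype.card Λ : ℝ) ^ 2 * μ ^ 2 := by
      have h2 : ∀ p q, (k p q - μ) ^ 2 = k p q ^ 2 - 2 * μ * k p q + μ ^ 2 := fun p q => by ring
      simp only [h2, sum_sub_distrib, sum_add_distrib, sum_const, card_univ, nsmul_eq_mul,
        ← mul_sum]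
      rw [hμ2]
      ring
    have h3 : ∑ p, ∑ q, k p q ^ 2 ≤ ∑ p : Λ, ∑ q : Λ, (1 : ℝ) := by
      refine sum_le_sum fun p _ => sum_le_sum fun q _ => ?_
      rw [← sq_abs]
      exact pow_le_one₀ (abs_nonneg _) (hk p q)
    have h4 : ∑ p : Λ, ∑ q : Λ, (1 : ℝ) = (Fintype.card Λ : ℝ) ^ 2 := by
      simp only [sum_const, card_univ, nsmul_eq_mul]
      ring
    have h5 : 0 ≤ (Fintype.card Λ : ℝ) ^ 2 * μ ^ 2 := by positivity
    linarith
  have hne : ∀ i j : Fin m, (x, i) ≠ (y, j) := fun i j h => hxy (congrArg Prod.fst h)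
  have hvar : ∀ i j : Fin m, ∑ b : Fin F × Fin m → Λ, (k (b (x, i)) (b (y, j)) - μ) ^ 2 ≤
      (Fintype.card (Fin F × Fin m → Λ) : ℝ) := by
    intro i j
    have h1 := resample2 (hne i j) (fun p q => (k p q - μ) ^ 2) (fun _ => (1 : ℝ))
      (fun _ _ => rfl) (fun _ _ => rfl)
    simp only [mul_one, sum_const, card_univ, nsmul_eq_mul] at h1
    have h2 : (Fintype.card Λ : ℝ) ^ 2 * ∑ b : Fin F × Fin m → Λ,
        (k (b (x, i)) (b (y, j)) - μ) ^ 2 ≤
        (Fintype.card Λ : ℝ) ^ 2 * (Fintype.card (Fin F × Fin m → Λ) : ℝ) := by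
      rw [h1]
      exact mul_le_mul_of_nonneg_right hsq hA
    exact le_of_mul_le_mul_left h2 hN2
  by_cases hbad : i = i' ∨ j = j'
  · have h1 : ∑ b : Fin F × Fin m → Λ, (k (b (x, i)) (b (y, j)) - μ) *
        (k (b (x, i')) (b (y, j')) - μ) ≤
        ∑ b : Fin F × Fin m → Λ, ((1 / 2) * (k (b (x, i)) (b (y, j)) - μ) ^ 2 +
          (1 / 2) * (k (b (x, i')) (b (y, j')) - μ) ^ 2) := by
      refine sum_le_sum fun b _ => ?_
      nlinarith [sq_nonneg ((k (b (x, i)) (b (y, j)) - μ) - (k (b (x, i')) (b (y, j')) - μ))]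
    rw [sum_add_distrib, ← mul_sum, ← mul_sum] at h1
    have h2 := hvar i j
    have h3 := hvar i' j'
    have h4 : (1 : ℝ) ≤ (if i = i' then (1 : ℝ) else 0) + (if j = j' then (1 : ℝ) else 0) := by
      rcases hbad with h | h
      · rw [if_pos h]
        split_ifs <;> norm_num
      · rw [if_pos h]
        split_ifs <;> norm_num
    have h5 : 1 * (Fintype.card (Fin F × Fin m → Λ) : ℝ) ≤
        ((if i = i' then (1 : ℝ) else 0) + (if j = j' then (1 : ℝ) else 0)) *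
        (Fintype.card (Fin F × Fin m → Λ) : ℝ) := mul_le_mul_of_nonneg_right h4 hA
    linarith
  · push Not at hbad
    rw [if_neg hbad.1, if_neg hbad.2, add_zero, zero_mul]
    have h1 := resample2 (hne i j) (fun p q => k p q - μ)
      (fun b : Fin F × Fin m → Λ => k (b (x, i')) (b (y, j')) - μ)
      (by
        intro b p
        show k (Function.update b (x, i) p (x, i')) (Function.update b (x, i) p (y, j')) - μ = _
        rw [Function.update_of_ne (by
          intro h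
          exact hbad.1 (congrArg Prod.snd h).symm), Function.update_of_ne (hne i j').symm])
      (by
        intro b p
        show k (Function.update b (y, j) p (x, i')) (Function.update b (y, j) p (y, j')) - μ = _
        rw [Function.update_of_ne (hne i' j), Function.update_of_ne (by
          intro h
          exact hbad.2 (congrArg Prod.snd h).symm)])
    rw [hz, zero_mul] at h1
    rcases mul_eq_zero.1 h1 with h2 | h2
    · exact absurd h2 hN2.ne'
    · exact le_of_eq h2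

/-- the second moment -/
theorem sec {F m : ℕ} {Λ : Type} [Fintype Λ] [Nonempty Λ] (k : Λ → Λ → ℝ) (hm : 1 ≤ m)
    (hk : ∀ a b, |k a b| ≤ 1) {x y : Fin F} (hxy : x ≠ y) :
    ∑ b : Fin F × Fin m → Λ, ((∑ p, ∑ q, k p q) / (Fintype.card Λ : ℝ) ^ 2 -
      (∑ i, ∑ j, k (b (x, i)) (b (y, j))) / (m : ℝ) ^ 2) ^ 2 ≤
      2 / m * (Fintype.card (Fin F × Fin m → Λ) : ℝ) := by
  obtain ⟨μ, hμ⟩ : ∃ μ : ℝ, μ = (∑ p, ∑ q, k p q) / (Fintype.card Λ : ℝ) ^ 2 := ⟨_, rfl⟩
  rw [← hμ]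
  have hm0 : (0 : ℝ) < m := by exact_mod_cast hm
  have h1 : ∀ b : Fin F × Fin m → Λ, (μ - (∑ i, ∑ j, k (b (x, i)) (b (y, j))) / (m : ℝ) ^ 2) ^ 2 =
      1 / (m : ℝ) ^ 4 * ∑ i, ∑ j, ∑ i', ∑ j', (k (b (x, i)) (b (y, j)) - μ) *
        (k (b (x, i')) (b (y, j')) - μ) := by
    intro b
    have h2 : ∑ i, ∑ j, ∑ i', ∑ j', (k (b (x, i)) (b (y, j)) - μ) *
        (k (b (x, i')) (b (y, j')) - μ) =
        (∑ i, ∑ j, (k (b (x, i)) (b (y, j)) - μ)) ^ 2 := by
      rw [sq]
      simp only [← mul_sum, ← sum_mul]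
    have h3 : ∑ i, ∑ j, (k (b (x, i)) (b (y, j)) - μ) =
        (∑ i, ∑ j, k (b (x, i)) (b (y, j))) - (m : ℝ) ^ 2 * μ := by
      simp only [sum_sub_distrib, sum_const, card_univ, nsmul_eq_mul, Fintype.card_fin]
      ring
    rw [h2, h3]
    field_simp
    ring
  simp only [h1]
  rw [← mul_sum]
  have h4 : ∑ b : Fin F × Fin m → Λ, ∑ i, ∑ j, ∑ i', ∑ j', (k (b (x, i)) (b (y, j)) - μ) *
      (k (b (x, i')) (b (y, j')) - μ) =
      ∑ i, ∑ j, ∑ i', ∑ j', ∑ b : Fin F × Fin m → Λ, (k (b (x, i)) (b (y, j)) - μ) *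
      (k (b (x, i')) (b (y, j')) - μ) := by
    rw [sum_comm]
    refine sum_congr rfl fun i _ => ?_
    rw [sum_comm]
    refine sum_congr rfl fun j _ => ?_
    rw [sum_comm]
    refine sum_congr rfl fun i' _ => ?_
    rw [sum_comm]
  have h5 : ∑ i : Fin m, ∑ j : Fin m, ∑ i' : Fin m, ∑ j' : Fin m,
      ∑ b : Fin F × Fin m → Λ, (k (b (x, i)) (b (y, j)) - μ) *
      (k (b (x, i')) (b (y, j')) - μ) ≤
      ∑ i : Fin m, ∑ j : Fin m, ∑ i' : Fin m, ∑ j' : Fin m,
      ((if i = i' then (1 : ℝ) else 0) + (if j = j' then (1 : ℝ) else 0)) *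
        (Fintype.card (Fin F × Fin m → Λ) : ℝ) :=
    sum_le_sum fun i _ => sum_le_sum fun j _ => sum_le_sum fun i' _ => sum_le_sum fun j' _ =>
      cov k hk μ hμ hxy i i' j j'
  have h6 : ∑ i : Fin m, ∑ j : Fin m, ∑ i' : Fin m, ∑ j' : Fin m,
      ((if i = i' then (1 : ℝ) else 0) + (if j = j' then (1 : ℝ) else 0)) *
        (Fintype.card (Fin F × Fin m → Λ) : ℝ) =
      2 * (m : ℝ) ^ 3 * (Fintype.card (Fin F × Fin m → Λ) : ℝ) := by
    simp only [← sum_mul]
    congr 1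
    simp only [sum_add_distrib, sum_const, card_univ, nsmul_eq_mul, Fintype.card_fin, sum_ite_eq,
      mem_univ, if_true, ← mul_sum]
    ring
  rw [h4]
  rw [h6] at h5
  calc 1 / (m : ℝ) ^ 4 * ∑ i, ∑ j, ∑ i', ∑ j', ∑ b : Fin F × Fin m → Λ,
        (k (b (x, i)) (b (y, j)) - μ) * (k (b (x, i')) (b (y, j')) - μ)
      ≤ 1 / (m : ℝ) ^ 4 * (2 * (m : ℝ) ^ 3 * (Fintype.card (Fin F × Fin m → Λ) : ℝ)) :=
        mul_le_mul_of_nonneg_left h5 (by positivity)
    _ = 2 / m * (Fintype.card (Fin F × Fin m → Λ) : ℝ) := by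
        field_simp

open Classical in
/-- the number of ordered pairs -/
theorem pairs {F : ℕ} (E : SimpleGraph (Fin F)) :
    ∑ x, ∑ y, (if E.Adj x y then (1 : ℝ) else 0) = 2 * (E.edgeSet.ncard : ℝ) := by
  have h1 := E.sum_degrees_eq_twice_card_edges
  have h2 : E.edgeSet.ncard = E.edgeFinset.card := by
    rw [Set.ncard_eq_toFinset_card']
    rfl
  rw [h2]
  have h3 : ((∑ v, E.degree v : ℕ) : ℝ) = ((2 * E.edgeFinset.card : ℕ) : ℝ) := by
    exact_mod_cast h1
  push_cast at h3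
  rw [← h3]
  refine sum_congr rfl fun x _ => ?_
  rw [Finset.sum_boole, ← SimpleGraph.card_neighborFinset_eq_degree,
    SimpleGraph.neighborFinset_eq_filter]

theorem t_SMP : Pool.Agent.H676.ED.S_SMP := by
  classical
  intro F m Λ _ _ E k hm hk
  have key : ∑ b : Fin F × Fin m → Λ, (∑ x, ∑ y, if E.Adj x y then
      ((∑ p, ∑ q, k x y p q) / (Fintype.card Λ : ℝ) ^ 2 -
        (∑ i, ∑ j, k x y (b (x, i)) (b (y, j))) / (m : ℝ) ^ 2) ^ 2 else 0) ≤
      ∑ b : Fin F × Fin m → Λ, 2 / m * (2 * (E.edgeSet.ncard : ℝ)) := by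
    rw [sum_const, card_univ, nsmul_eq_mul, sum_comm, ← pairs, mul_sum, mul_sum]
    refine sum_le_sum fun x _ => ?_
    rw [sum_comm, mul_sum, mul_sum]
    refine sum_le_sum fun y _ => ?_
    by_cases h : E.Adj x y
    · simp only [if_pos h]
      refine (sec (k x y) hm (hk x y) h.ne).trans (le_of_eq ?_)
      ring
    · simp only [if_neg h]
      rw [sum_const_zero, mul_zero, mul_zero]
  obtain ⟨b, -, hb⟩ := exists_le_of_sum_le univ_nonempty key
  exact ⟨fun x i => b (x, i), hb⟩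

end Pool.Agent.H396.ED_SMP
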