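import Pool.Agent.H979.FR.Stm

/-!
Project FR (helper979), job PAR: the choice of the parameters.
-/

set_option autoImplicit false

namespace Pool.Agent.H396

open Finset Filter Topology Pool.Agent.H979.FR

theorem fr_par_F {y : ℝ} (hy : 1 ≤ y) : (1 + Real.log (1 + 2 * y ^ 2)) / y ^ 2 ≤ 5 / y := by
  have hy0 : 0 < y := zero_lt_one.trans_le hy
  have h1 : Real.log (1 + 2 * y ^ 2) ≤ 4 * y := by
    have h2 : (1 + 2 * y ^ 2) ≤ (1 + 2 * y) ^ 2 := by nlinarith
    have h3 : Real.log (1 + 2 * y ^ 2) ≤ Real.log ((1 + 2 * y) ^ 2) :=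
      Real.log_le_log (by positivity) h2
    rw [Real.log_pow] at h3
    have h4 := Real.log_le_sub_one_of_pos (show (0:ℝ) < 1 + 2 * y by positivity)
    push_cast at h3
    linarith
  rw [div_le_div_iff₀ (by positivity) hy0]
  have h5 : 1 + Real.log (1 + 2 * y ^ 2) ≤ 5 * y := by linarith
  calc (1 + Real.log (1 + 2 * y ^ 2)) * y ≤ (5 * y) * y := mul_le_mul_of_nonneg_right h5 hy0.le
    _ = 5 * y ^ 2 := by ring

theorem fr_par : S_PAR := by
  intro lam c hlam hc
  -- the number of vertices of a cell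
  obtain ⟨M0, hM0⟩ := exists_nat_ge (409600 * 64 / lam)
  obtain ⟨M, hM1, hM⟩ : ∃ M : ℕ, 1 ≤ M ∧ 409600 * 64 / lam ≤ (M : ℝ) :=
    ⟨M0 + 1, by omega, hM0.trans (by push_cast; linarith)⟩
  have ha : (409600 : ℝ) ≤ lam * M / 64 := by
    rw [div_le_iff₀ hlam] at hM
    linarith
  obtain ⟨a, haM⟩ : ∃ a : ℝ, a = lam * M / 64 := ⟨_, rfl⟩
  rw [← haM] at ha
  have ha0 : 0 < a := by linarith
  obtain ⟨α, hα0, hα2⟩ : ∃ α : ℝ, 0 < α ∧ α ^ 2 = a := ⟨Real.sqrt a, Real.sqrt_pos.2 ha0,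
    Real.sq_sqrt ha0.le⟩
  have hα : 640 ≤ α := by
    by_contra hcon
    have : α < 640 := not_le.1 hcon
    nlinarith
  obtain ⟨t, ht0, ht2⟩ : ∃ t : ℝ, 0 < t ∧ t ^ 2 = 2 := ⟨Real.sqrt 2, by positivity,
    Real.sq_sqrt (by norm_num)⟩
  have ht : 4 / 3 ≤ t := by
    by_contra hcon
    have : t < 4 / 3 := not_le.1 hcon
    nlinarith
  obtain ⟨b, hb0, hb2⟩ : ∃ b : ℝ, 0 < b ∧ b ^ 2 = c / 2 := ⟨Real.sqrt (c / 2),
    Real.sqrt_pos.2 (by positivity), Real.sq_sqrt (by positivity)⟩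
  obtain ⟨s, hs0, hs2⟩ : ∃ s : ℝ, 0 < s ∧ s ^ 2 = 11 / 10 := ⟨Real.sqrt (11 / 10), by positivity,
    Real.sq_sqrt (by norm_num)⟩
  have hs : 1 < s := by
    by_contra hcon
    have : s ≤ 1 := not_lt.1 hcon
    nlinarith
  -- the tail
  have hsum : Summable (fun r : ℕ => 5 / (b * s ^ r)) := by
    have h1 : Summable (fun r : ℕ => (5 / b) * (s⁻¹) ^ r) :=
      (summable_geometric_of_lt_one (inv_nonneg.2 hs0.le) (inv_lt_one_of_one_lt₀ hs)).mul_left _
    refine h1.congr fun r => ?_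
    rw [inv_pow]
    field_simp
  have htail := tendsto_sum_nat_add (fun r : ℕ => 5 / (b * s ^ r))
  have hbig : Tendsto (fun r : ℕ => b * s ^ r) atTop atTop :=
    (tendsto_pow_atTop_atTop_of_one_lt hs).const_mul_atTop hb0
  have hev1 : ∀ᶠ r : ℕ in atTop, ∑' k, 5 / (b * s ^ (k + r)) < 1 / 32 :=
    htail.eventually (eventually_lt_nhds (by norm_num))
  have hev2 : ∀ᶠ r : ℕ in atTop, α ≤ b * s ^ r := hbig.eventually_ge_atTop α
  obtain ⟨r1, hr1⟩ := eventually_atTop.1 (hev1.and hev2)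
  obtain ⟨r2, hr2⟩ := pow_unbounded_of_one_lt (lam * M / 32 * 2 ^ r1 / c)
    (show (1:ℝ) < 11 / 10 by norm_num)
  have e1 : ∀ r : ℕ, a * 2 ^ r = (α * t ^ r) ^ 2 := by
    intro r
    rw [mul_pow, hα2, ← pow_mul, mul_comm r 2, pow_mul, ht2]
  have e2 : ∀ r : ℕ, c / 2 * (11 / 10) ^ r = (b * s ^ r) ^ 2 := by
    intro r
    rw [mul_pow, hb2, ← pow_mul, mul_comm r 2, pow_mul, hs2]
  have htr : ∀ r : ℕ, (4 / 3 : ℝ) ^ r ≤ t ^ r := fun r => pow_le_pow_left₀ (by norm_num) ht r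
  have hg1 : ∀ r : ℕ, (1 + Real.log (1 + 2 * (a * 2 ^ r))) / (a * 2 ^ r) ≤
      5 / α * (3 / 4) ^ r := by
    intro r
    have h1 : 1 ≤ t ^ r := one_le_pow₀ (by linarith)
    have h2 : 1 ≤ α * t ^ r := by nlinarith
    rw [e1]
    refine (fr_par_F h2).trans ?_
    have h3 : (3 / 4 : ℝ) ^ r = ((4 / 3) ^ r)⁻¹ := by
      rw [← inv_pow]
      norm_num
    rw [h3, ← div_eq_mul_inv, div_div]
    exact div_le_div_of_nonneg_left (by norm_num) (by positivity)
      (mul_le_mul_of_nonneg_left (htr r) hα0.le)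
  have hg2 : ∀ r : ℕ, r1 ≤ r → (1 + Real.log (1 + 2 * (c / 2 * (11 / 10) ^ r))) /
      (c / 2 * (11 / 10) ^ r) ≤ 5 / (b * s ^ r) := by
    intro r hr
    have h2 : 1 ≤ b * s ^ r := by
      have := (hr1 r hr).2
      linarith
    rw [e2]
    exact fr_par_F h2
  refine ⟨M, r1, r2, fun r => if r ≤ r1 then a * 2 ^ r else c / 2 * (11 / 10) ^ r, hM1, ?_, ?_, ?_,
    ?_, ?_, ?_⟩
  · intro r
    dsimp only
    split_ifs
    · positivity
    · positivity
  · intro r
    dsimp only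
    rw [if_pos (Nat.zero_le _), pow_zero, mul_one]
    split_ifs with h
    · exact le_mul_of_one_le_right ha0.le (one_le_pow₀ (by norm_num))
    · rw [e2, ← hα2]
      exact pow_le_pow_left₀ hα0.le (hr1 r (by omega)).2 2
  · intro k
    dsimp only
    have hbound : ∀ r ∈ range k, (1 + Real.log (1 + 2 * (if r ≤ r1 then a * 2 ^ r else
        c / 2 * (11 / 10) ^ r))) / (if r ≤ r1 then a * 2 ^ r else c / 2 * (11 / 10) ^ r) ≤
        5 / α * (3 / 4) ^ r + (if r ≤ r1 then 0 else 5 / (b * s ^ r)) := by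
      intro r _
      split_ifs with h
      · rw [add_zero]
        exact hg1 r
      · have h1 := hg2 r (by omega)
        have h2 : 0 ≤ 5 / α * (3 / 4 : ℝ) ^ r := by positivity
        linarith
    refine (Finset.sum_le_sum hbound).trans ?_
    rw [Finset.sum_add_distrib]
    have hA : ∑ r ∈ range k, 5 / α * (3 / 4 : ℝ) ^ r ≤ 1 / 32 := by
      rw [← Finset.mul_sum]
      have h1 : ∑ r ∈ range k, (3 / 4 : ℝ) ^ r ≤ 4 := by
        have h2 := (summable_geometric_of_lt_one (show (0:ℝ) ≤ 3 / 4 by norm_num)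
          (by norm_num)).sum_le_tsum (range k) (fun i _ => by positivity)
        rw [tsum_geometric_of_lt_one (by norm_num) (by norm_num)] at h2
        norm_num at h2
        exact h2
      have h3 : 5 / α ≤ 1 / 128 := by
        rw [div_le_div_iff₀ hα0 (by norm_num)]
        linarith
      have h4 : 0 ≤ 5 / α := by positivity
      calc 5 / α * ∑ r ∈ range k, (3 / 4 : ℝ) ^ r ≤ 5 / α * 4 := mul_le_mul_of_nonneg_left h1 h4
        _ ≤ 1 / 32 := by linarith
    have hB : ∑ r ∈ range k, (if r ≤ r1 then (0:ℝ) else 5 / (b * s ^ r)) ≤ 1 / 32 := by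
      have hnn : ∀ r, 0 ≤ (if r ≤ r1 then (0:ℝ) else 5 / (b * s ^ r)) := by
        intro r
        split_ifs
        · exact le_refl _
        · positivity
      have h1 : ∑ r ∈ range k, (if r ≤ r1 then (0:ℝ) else 5 / (b * s ^ r)) ≤
          ∑ r ∈ range (r1 + 1 + k), (if r ≤ r1 then (0:ℝ) else 5 / (b * s ^ r)) :=
        Finset.sum_le_sum_of_subset_of_nonneg (range_mono (by omega)) (fun r _ _ => hnn r)
      refine h1.trans ?_
      rw [Finset.sum_range_add]
      have h2 : ∑ r ∈ range (r1 + 1), (if r ≤ r1 then (0:ℝ) else 5 / (b * s ^ r)) = 0 := by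
        refine Finset.sum_eq_zero fun r hr => ?_
        rw [if_pos (by have := mem_range.1 hr; omega)]
      have h3 : ∑ x ∈ range k, (if r1 + 1 + x ≤ r1 then (0:ℝ) else 5 / (b * s ^ (r1 + 1 + x))) =
          ∑ x ∈ range k, 5 / (b * s ^ (x + (r1 + 1))) := by
        refine Finset.sum_congr rfl fun x _ => ?_
        rw [if_neg (by omega), add_comm (r1 + 1) x]
      rw [h2, h3, zero_add]
      have h4 := ((summable_nat_add_iff (r1 + 1)).2 hsum).sum_le_tsum (range k)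
        (fun i _ => by positivity)
      exact h4.trans (hr1 (r1 + 1) (by omega)).1.le
    linarith
  · intro r hr
    dsimp only
    rw [if_pos hr, haM]
    ring
  · intro r hr
    dsimp only
    rw [if_neg (by omega)]
    ring
  · rw [div_lt_iff₀ hc] at hr2
    linarith

end Pool.Agent.H396
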