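import Pool.Agent.H683.SC.PStm

/-!
# Project SC: the expression of a program can be computed in polynomial time
-/

set_option autoImplicit false

namespace Pool.Agent.NPC.H396SC

open Turing Pool.Agent.H633R2 Pool.Agent.H683.MC Pool.Agent.H683.SC

section Cons

variable {α : Type} [TEnc α]

theorem pVtx {f : α → ℕ} (hf : Poly f) : Poly (fun a => KExp.vtx (f a)) :=
  Poly.of_toT (Poly.node (Poly.const T.nil) hf.toT')

theorem pUnion {s t : α → KExp} (hs : Poly s) (ht : Poly t) :
    Poly (fun a => KExp.union (s a) (t a)) :=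
  Poly.of_toT (Poly.node (Poly.const (T.node T.nil T.nil)) (Poly.node hs.toT' ht.toT'))

theorem pJoin {f g : α → ℕ} {t : α → KExp} (hf : Poly f) (hg : Poly g) (ht : Poly t) :
    Poly (fun a => KExp.join (f a) (g a) (t a)) :=
  Poly.of_toT (Poly.node (Poly.const (T.node T.nil (T.node T.nil T.nil)))
    (Poly.node (Poly.pair hf hg).toT' ht.toT'))

theorem pRelab {f g : α → ℕ} {t : α → KExp} (hf : Poly f) (hg : Poly g) (ht : Poly t) :
    Poly (fun a => KExp.relab (f a) (g a) (t a)) :=
  Poly.of_toT (Poly.node (Poly.const (T.node (T.node T.nil T.nil) T.nil))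
    (Poly.node (Poly.pair hf hg).toT' ht.toT'))

end Cons

section Size

theorem sVtx (a : ℕ) : sz (KExp.vtx a) = sz a + 2 := by
  change (T.node T.nil (toT a)).size = (toT a).size + 2
  simp
  omega

theorem sUnion (s t : KExp) : sz (KExp.union s t) = sz s + sz t + 5 := by
  change (T.node (T.node T.nil T.nil) (T.node (toT s) (toT t))).size =
    (toT s).size + (toT t).size + 5
  simp
  omega

theorem sJoin (a b : ℕ) (t : KExp) : sz (KExp.join a b t) = sz a + sz b + sz t + 8 := by
  change (T.node (T.node T.nil (T.node T.nil T.nil)) (T.node (T.node (toT a) (toT b))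
    (toT t))).size = (toT a).size + (toT b).size + (toT t).size + 8
  simp
  omega

theorem sRelab (a b : ℕ) (t : KExp) : sz (KExp.relab a b t) = sz a + sz b + sz t + 8 := by
  change (T.node (T.node (T.node T.nil T.nil) T.nil) (T.node (T.node (toT a) (toT b))
    (toT t))).size = (toT a).size + (toT b).size + (toT t).size + 8
  simp
  omega

theorem sStE (k : ℕ) (t : KExp) (c : Cm) :
    sz (stE k t c) ≤ sz t + (4 * sz k + sz (k + 1) + 31) + 2 * sz c := by
  obtain ⟨a, o⟩ := c
  cases o with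
  | none =>
    change sz (KExp.union (KExp.relab a (k + 1) t) (KExp.vtx a)) ≤ _
    rw [sUnion, sRelab, sVtx, sz_pair, sz_none]
    omega
  | some b =>
    change sz (KExp.relab k (k + 1) (KExp.join k b (KExp.join k a
      (KExp.union t (KExp.vtx k))))) ≤ _
    rw [sRelab, sJoin, sJoin, sUnion, sVtx, sz_pair, sz_some]
    omega

theorem sFold (k : ℕ) (l : List Cm) : ∀ t : KExp, sz (l.foldl (stE k) t) ≤
    sz t + l.length * (4 * sz k + sz (k + 1) + 31) + 2 * sz l := by
  induction l with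
  | nil =>
    intro t
    simp
  | cons c l ih =>
    intro t
    have h1 := ih (stE k t c)
    have h2 := sStE k t c
    rw [List.foldl_cons, List.length_cons, sz_list_cons, Nat.add_mul, one_mul]
    omega

end Size

theorem poly_stE {α : Type} [TEnc α] {k : α → ℕ} (hk : Poly k) :
    Poly (fun p : α × KExp × Cm => stE (k p.1) p.2.1 p.2.2) := by
  have hk1 : Poly (fun p : α × KExp × Cm => k p.1) := hk.comp (Poly.fst Poly.id)
  have ht1 : Poly (fun p : α × KExp × Cm => p.2.1) := Poly.fst (Poly.snd Poly.id)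
  have ha1 : Poly (fun p : α × KExp × Cm => p.2.2.1) := Poly.fst (Poly.snd (Poly.snd Poly.id))
  have ho : Poly (fun p : α × KExp × Cm => p.2.2.2) := Poly.snd (Poly.snd (Poly.snd Poly.id))
  have hg : Poly (fun p : α × KExp × Cm =>
      KExp.union (KExp.relab p.2.2.1 (k p.1 + 1) p.2.1) (KExp.vtx p.2.2.1)) :=
    pUnion (pRelab ha1 (Poly.succ hk1) ht1) (pVtx ha1)
  have hk2 : Poly (fun x : (α × KExp × Cm) × ℕ => k x.1.1) := hk1.comp (Poly.fst Poly.id)
  have ht2 : Poly (fun x : (α × KExp × Cm) × ℕ => x.1.2.1) := ht1.comp (Poly.fst Poly.id)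
  have ha2 : Poly (fun x : (α × KExp × Cm) × ℕ => x.1.2.2.1) := ha1.comp (Poly.fst Poly.id)
  have hb2 : Poly (fun x : (α × KExp × Cm) × ℕ => x.2) := Poly.snd Poly.id
  have hh : Poly (fun x : (α × KExp × Cm) × ℕ =>
      KExp.relab (k x.1.1) (k x.1.1 + 1) (KExp.join (k x.1.1) x.2 (KExp.join (k x.1.1) x.1.2.2.1
        (KExp.union x.1.2.1 (KExp.vtx (k x.1.1)))))) :=
    pRelab hk2 (Poly.succ hk2) (pJoin hk2 hb2 (pJoin hk2 ha2 (pUnion ht2 (pVtx hk2))))
  refine (Poly.optCases (o := fun p : α × KExp × Cm => p.2.2.2)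
    (g := fun p => KExp.union (KExp.relab p.2.2.1 (k p.1 + 1) p.2.1) (KExp.vtx p.2.2.1))
    (h := fun p b => KExp.relab (k p.1) (k p.1 + 1) (KExp.join (k p.1) b (KExp.join (k p.1)
      p.2.2.1 (KExp.union p.2.1 (KExp.vtx (k p.1)))))) ho hg hh).congr ?_
  rintro ⟨a, t, c, o⟩
  cases o <;> rfl

/-- **PEXP.** -/
theorem PEXP : S_PEXP := by
  intro α _ k cs hk hcs
  obtain ⟨p1, hp1⟩ := hk.sz_le
  obtain ⟨p2, hp2⟩ := (Poly.succ hk).sz_le
  obtain ⟨p3, hp3⟩ := hcs.sz_le
  refine Poly.foldl (l := cs) (s := fun _ => KExp.vtx 0) (F := fun a t c => stE (k a) t c)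
    hcs (Poly.const (KExp.vtx 0)) (poly_stE hk)
    (Polynomial.C (sz (KExp.vtx 0)) + p3 * (Polynomial.C 4 * p1 + p2 + Polynomial.C 31) +
      Polynomial.C 2 * p3) ?_
  intro a j hj
  have h1 := sFold (k a) ((cs a).take j) (KExp.vtx 0)
  have h2 := Poly.sz_take_le (cs a) j
  have h3 : ((cs a).take j).length ≤ sz (cs a) := by
    rw [List.length_take]
    have := length_lt_sz (cs a)
    omega
  have h4 : ((cs a).take j).length * (4 * sz (k a) + sz (k a + 1) + 31) ≤
      p3.eval (sz a) * (4 * p1.eval (sz a) + p2.eval (sz a) + 31) := by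
    refine Nat.mul_le_mul (h3.trans (hp3 a)) ?_
    have e1 := hp1 a
    have e2 := hp2 a
    omega
  have h5 := hp3 a
  simp only [Polynomial.eval_add, Polynomial.eval_mul, Polynomial.eval_C]
  refine h1.trans ?_
  omega

end Pool.Agent.NPC.H396SC
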