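import Pool.Agent.H770.GS.TB

/-!
# `S_F2` : the case `k = 2` of the family `(a, a, b, …, b)`
-/

set_option autoImplicit false

open MeasureTheory Set intervalIntegral Filter Topology

namespace Pool.Agent.H396.TB

open Pool.Agent.H770.GS

theorem e_eq (r x : ℝ) :
    Real.exp (-x ^ 2 / 4) * Real.exp (-(r - x / 2) ^ 2) = W r * W (r - x) := by
  unfold W
  rw [← Real.exp_add, ← Real.exp_add]
  congr 1
  ring

theorem nL_eq (r x : ℝ) : nL r x = x / 2 * fL r x + W r * W (r - x) := by
  unfold nL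
  rw [e_eq]

noncomputable def Gg (r β : ℝ) : ℝ := ∫ z in (0:ℝ)..(2 * r), fL r z * fL r (β * z)

noncomputable def Gd (r β : ℝ) : ℝ := ∫ z in (0:ℝ)..(2 * r), fL r z * (-nL r (β * z) * z)

theorem Gg_deriv (r β : ℝ) : HasDerivAt (Gg r) (Gd r β) β := by
  have hf := fL_cont r
  have hn := nL_cont r
  refine hasDerivAt_param (f := fun β z => fL r z * fL r (β * z))
    (f' := fun β z => fL r z * (-nL r (β * z) * z)) ?_ ?_ ?_ 0 (2 * r) β
  · intro x y
    have h1 : HasDerivAt (fun β : ℝ => β * y) y x := by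
      simpa using (hasDerivAt_id x).mul_const y
    exact ((fL_deriv r (x * y)).comp x h1).const_mul (fL r y)
  · intro x
    fun_prop
  · fun_prop

theorem ftc0 (r β : ℝ) : ∫ z in (0:ℝ)..(2 * r), (1 * (fL r z * fL r (β * z)) +
    z * (-nL r z * fL r (β * z) + fL r z * (-nL r (β * z) * β))) = 0 := by
  have hf := fL_cont r
  have hn := nL_cont r
  rw [intervalIntegral.integral_eq_sub_of_hasDerivAt
    (f := fun z => z * (fL r z * fL r (β * z)))]
  · simp [fL_end]
  · intro z _
    have h1 : HasDerivAt (fun z : ℝ => β * z) β z := by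
      simpa using (hasDerivAt_id z).const_mul β
    have h2 : HasDerivAt (fun z => fL r (β * z)) (-nL r (β * z) * β) z :=
      (fL_deriv r (β * z)).comp z h1
    exact (hasDerivAt_id z).mul ((fL_deriv r z).mul h2)
  · refine Continuous.intervalIntegrable ?_ _ _
    fun_prop

theorem ident (r β : ℝ) : (1 + β ^ 2) * Gd r β + β * Gg r β = W r * HH r β := by
  have hf := fL_cont r
  have hn := nL_cont r
  have hW := W_cont
  have h0 : (1 + β ^ 2) * Gd r β + β * Gg r β - W r * HH r β =
      β * ∫ z in (0:ℝ)..(2 * r), (1 * (fL r z * fL r (β * z)) +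
        z * (-nL r z * fL r (β * z) + fL r z * (-nL r (β * z) * β))) := by
    unfold Gd Gg HH
    rw [← intervalIntegral.integral_const_mul, ← intervalIntegral.integral_const_mul,
      ← intervalIntegral.integral_const_mul, ← intervalIntegral.integral_const_mul,
      ← intervalIntegral.integral_add, ← intervalIntegral.integral_sub]
    · refine intervalIntegral.integral_congr fun z _ => ?_
      simp only [nL_eq]
      ring
    · exact Continuous.intervalIntegrable (by fun_prop) _ _
    · exact Continuous.intervalIntegrable (by fun_prop) _ _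
    · exact Continuous.intervalIntegrable (by fun_prop) _ _
    · exact Continuous.intervalIntegrable (by fun_prop) _ _
  rw [ftc0, mul_zero] at h0
  linarith

theorem pt_cont (r : ℝ) : Continuous (pt r) := by
  unfold pt
  exact ((fL_cont r).comp continuous_abs).max continuous_const

theorem FF_two {r s : ℝ} (hr : 0 < r) (hs : 0 ≤ s) (hs2 : s ≤ 2) :
    FF r 2 s = 2 * Real.sqrt 2 * (Real.sqrt (1 + Real.sqrt (s / 2) ^ 2) * Gg r (Real.sqrt (s / 2))) := by
  obtain ⟨β, hβ⟩ : ∃ β, β = Real.sqrt (s / 2) := ⟨_, rfl⟩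
  have hβ0 : 0 ≤ β := by rw [hβ]; exact Real.sqrt_nonneg _
  have hβ2 : β ^ 2 = s / 2 := by rw [hβ]; exact Real.sq_sqrt (by positivity)
  have hβ1 : β ≤ 1 := by
    rw [hβ]
    exact Real.sqrt_le_one.2 (by linarith)
  have hb : Real.sqrt s * (1 / Real.sqrt (2 : ℕ)) = β := by
    rw [hβ, Real.sqrt_div hs]
    push_cast
    ring
  rw [← hβ]
  have e1 : dens r (List.replicate 2 (1 / Real.sqrt (2 : ℕ)))
      (fun z => pt r (Real.sqrt s * z)) 0 = 2 * Gg r β := by
    have e2 : dens r (List.replicate 2 (1 / Real.sqrt (2 : ℕ)))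
        (fun z => pt r (Real.sqrt s * z)) 0 =
        ∫ x in (-r)..r, ∫ y in (-r)..r, W x * (W y * (fun u => pt r (β * u)) (x + y)) := by
      change cv r (1 / Real.sqrt (2 : ℕ)) (cv r (1 / Real.sqrt (2 : ℕ))
        (fun z => pt r (Real.sqrt s * z))) 0 = _
      unfold cv
      refine intervalIntegral.integral_congr fun x _ => ?_
      try simp only
      rw [← intervalIntegral.integral_const_mul]
      refine intervalIntegral.integral_congr fun y _ => ?_
      try simp only
      rw [show Real.sqrt s * (0 + 1 / Real.sqrt (2 : ℕ) * x + 1 / Real.sqrt (2 : ℕ) * y) =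
        Real.sqrt s * (1 / Real.sqrt (2 : ℕ)) * (x + y) by ring, hb]
    rw [e2, fold (G := fun u => pt r (β * u))
      ((pt_cont r).comp (by fun_prop : Continuous fun u : ℝ => β * u)) hr]
    unfold Gg
    rw [← intervalIntegral.integral_const_mul]
    refine intervalIntegral.integral_congr fun z hz => ?_
    rw [uIcc_of_le (by linarith)] at hz
    have hz0 := hz.1
    have hz1 := hz.2
    have hbz0 : 0 ≤ β * z := mul_nonneg hβ0 hz0
    have hbz : β * z ≤ 2 * r := le_trans (mul_le_of_le_one_left hz0 hβ1) hz1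
    have p1 : pt r (β * z) = fL r (β * z) := by
      unfold pt
      rw [abs_of_nonneg hbz0]
      exact max_eq_left (fL_nonneg hbz)
    have p2 : pt r (β * -z) = fL r (β * z) := by
      unfold pt
      rw [mul_neg, abs_neg, abs_of_nonneg hbz0]
      exact max_eq_left (fL_nonneg hbz)
    try simp only
    rw [p1, p2]
    ring
  unfold FF
  rw [e1, hβ2, show (2 : ℝ) + s = 2 * (1 + s / 2) by ring, Real.sqrt_mul (by norm_num)]
  ring

theorem K_mono (HS : S_H) {r : ℝ} (hr : 0 < r) :
    MonotoneOn (fun β => Real.sqrt (1 + β ^ 2) * Gg r β) (Icc (Real.sqrt (1 / 2)) 1) := by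
  have hd : ∀ β : ℝ, HasDerivAt (fun β => Real.sqrt (1 + β ^ 2) * Gg r β)
      (β / Real.sqrt (1 + β ^ 2) * Gg r β + Real.sqrt (1 + β ^ 2) * Gd r β) β := by
    intro β
    have h1 : HasDerivAt (fun β : ℝ => 1 + β ^ 2) (2 * β) β := by
      refine ((hasDerivAt_pow 2 β).const_add 1).congr_deriv ?_
      norm_num
    have h2 := h1.sqrt (by positivity)
    refine (h2.mul (Gg_deriv r β)).congr_deriv ?_
    congr 2
    rw [mul_div_mul_left _ _ (by norm_num : (2:ℝ) ≠ 0)]
  refine monotoneOn_of_deriv_nonneg (convex_Icc _ _) ?_ ?_ ?_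
  · exact fun x _ => (hd x).continuousAt.continuousWithinAt
  · exact fun x _ => (hd x).differentiableAt.differentiableWithinAt
  · intro β hβ
    rw [interior_Icc] at hβ
    rw [(hd β).deriv]
    have hβ0 : 0 ≤ β := le_trans (Real.sqrt_nonneg _) hβ.1.le
    have hβ2 : 1 / 2 ≤ β ^ 2 := by
      have h1 : Real.sqrt (1 / 2) ^ 2 = 1 / 2 := Real.sq_sqrt (by norm_num)
      have h2 := Real.sqrt_nonneg (1 / 2)
      nlinarith [hβ.1]
    have hH := HS r β hr hβ2 hβ0 hβ.2.le
    have hq : 0 < Real.sqrt (1 + β ^ 2) := Real.sqrt_pos.2 (by positivity)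
    have hqq : Real.sqrt (1 + β ^ 2) ^ 2 = 1 + β ^ 2 := Real.sq_sqrt (by positivity)
    have e : β / Real.sqrt (1 + β ^ 2) * Gg r β + Real.sqrt (1 + β ^ 2) * Gd r β =
        (W r * HH r β) / Real.sqrt (1 + β ^ 2) := by
      rw [← ident, eq_div_iff hq.ne']
      field_simp
      rw [hqq]
      ring
    rw [e]
    have := W_pos r
    positivity

theorem F2 : S_F2 := by
  intro HS r hr s1 s2 h1 h12 h2
  rw [FF_two hr (by linarith) (by linarith), FF_two hr (by linarith) h2]
  have m1 : Real.sqrt (s1 / 2) ∈ Icc (Real.sqrt (1 / 2)) 1 :=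
    ⟨Real.sqrt_le_sqrt (by linarith), Real.sqrt_le_one.2 (by linarith)⟩
  have m2 : Real.sqrt (s2 / 2) ∈ Icc (Real.sqrt (1 / 2)) 1 :=
    ⟨Real.sqrt_le_sqrt (by linarith), Real.sqrt_le_one.2 (by linarith)⟩
  have h := K_mono HS hr m1 m2 (Real.sqrt_le_sqrt (by linarith))
  exact mul_le_mul_of_nonneg_left h (by positivity)

end Pool.Agent.H396.TB
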