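import Pool.Agent.H770.GS.UQB
import Pool.Agent.H278.TBH

/-!
# Project UQ (helper770), job UQ-19 (helper396): `HH > 0` (`S_Hs`)
-/

set_option autoImplicit false

open MeasureTheory Set intervalIntegral Filter Topology

namespace Pool.Agent.H396.UQ19

open Pool.Agent.H770.GS hiding KK
open Pool.Agent.H278.TBH

/-- the strict lower bound of the first term -/
lemma key1s {r β a : ℝ} (hβ : 0 < β) (hβ1 : β < 1) (ha : 0 < a) (ha2 : a < 2 * r) :
    KK r β a * (β * (2 * r - β * a) * (1 + 2 / 3 * (1 - β) * a * (r - (1 + β) * a / 4))) <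
      β * fL r (β * a) * W (r - a) := by
  have hX0 : 0 < 2 / 3 * (1 - β) * a * (r - (1 + β) * a / 4) := by
    have h1 : (1 + β) * a < 2 * a := mul_lt_mul_of_pos_right (by linarith) ha
    have h2 : 0 < r - (1 + β) * a / 4 := by linarith
    have h3 : 0 < 1 - β := by linarith
    positivity
  set p : ℝ := r - a / 2 with hp
  set q : ℝ := r - β * a / 2 with hq
  have hp0 : 0 < p := by linarith
  have hpq : p ≤ q := by
    have : β * a ≤ 1 * a := mul_le_mul_of_nonneg_right hβ1.le ha.le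
    linarith
  have hq0 : 0 < q := hp0.trans_le hpq
  set X : ℝ := 2 / 3 * (1 - β) * a * (r - (1 + β) * a / 4) with hX
  have hrat := I2_ratio hp0 hpq
  have hIp := I2_pos hp0
  have e1 : KK r β a = Real.exp (-a ^ 2 / 4) * I2 p * Real.exp (-(r - β * a) ^ 2 / 2) / (2 * p) := by
    unfold KK fL W
    rw [show 2 * r - a = 2 * p by rw [hp]; ring]
  have e2 : 2 * r - β * a = 2 * q := by rw [hq]; ring
  have e3 : fL r (β * a) = Real.exp (-(β * a) ^ 2 / 4) * I2 q := rfl
  have e4 : I2 p / p * q * Real.exp ((p ^ 2 - q ^ 2) / 3) ≤ I2 q := by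
    have h1 : Real.exp ((p ^ 2 - q ^ 2) / 3) = Real.exp (p ^ 2 / 3) * Real.exp (-(q ^ 2 / 3)) := by
      rw [← Real.exp_add]
      congr 1
      ring
    have h2 : Real.exp (q ^ 2 / 3) * Real.exp (-(q ^ 2 / 3)) = 1 := by
      rw [← Real.exp_add]
      simp
    calc I2 p / p * q * Real.exp ((p ^ 2 - q ^ 2) / 3)
        = (I2 p / p * Real.exp (p ^ 2 / 3)) * (q * Real.exp (-(q ^ 2 / 3))) := by rw [h1]; ring
      _ ≤ (I2 q / q * Real.exp (q ^ 2 / 3)) * (q * Real.exp (-(q ^ 2 / 3))) :=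
          mul_le_mul_of_nonneg_right hrat (by positivity)
      _ = I2 q * (Real.exp (q ^ 2 / 3) * Real.exp (-(q ^ 2 / 3))) := by
          field_simp
      _ = I2 q := by rw [h2, mul_one]
  have e5 : Real.exp ((p ^ 2 - q ^ 2) / 3) * (Real.exp (-(β * a) ^ 2 / 4) *
      Real.exp (-(r - a) ^ 2 / 2)) =
      Real.exp (-a ^ 2 / 4) * Real.exp (-(r - β * a) ^ 2 / 2) * Real.exp X := by
    rw [← Real.exp_add, ← Real.exp_add, ← Real.exp_add, ← Real.exp_add]
    congr 1
    rw [hX, hp, hq]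
    ring
  have e6 : 1 + X < Real.exp X := by
    have := Real.add_one_lt_exp hX0.ne'
    linarith
  unfold W at *
  rw [e1, e2, e3]
  calc Real.exp (-a ^ 2 / 4) * I2 p * Real.exp (-(r - β * a) ^ 2 / 2) / (2 * p) *
        (β * (2 * q) * (1 + X))
      = β * (I2 p / p * q) * (Real.exp (-a ^ 2 / 4) * Real.exp (-(r - β * a) ^ 2 / 2)) *
          (1 + X) := by
        field_simp
    _ < β * (I2 p / p * q) * (Real.exp (-a ^ 2 / 4) * Real.exp (-(r - β * a) ^ 2 / 2)) *
          Real.exp X := mul_lt_mul_of_pos_left e6 (by positivity)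
    _ = β * (I2 p / p * q * Real.exp ((p ^ 2 - q ^ 2) / 3)) * (Real.exp (-(β * a) ^ 2 / 4) *
          Real.exp (-(r - a) ^ 2 / 2)) := by
        rw [mul_assoc, ← e5]
        ring
    _ ≤ β * I2 q * (Real.exp (-(β * a) ^ 2 / 4) * Real.exp (-(r - a) ^ 2 / 2)) := by
        refine mul_le_mul_of_nonneg_right ?_ (by positivity)
        exact mul_le_mul_of_nonneg_left e4 hβ.le
    _ = β * (Real.exp (-(β * a) ^ 2 / 4) * I2 q) * Real.exp (-(r - a) ^ 2 / 2) := by ring

/-- the comparison function of `key4` -/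
noncomputable def GG (r β x : ℝ) : ℝ :=
  (∫ a in (0:ℝ)..x, FH r β a) - (1 - β) * (x ^ 2 * ((1 + β) * x / 3 - r)) * KK r β x

/-- its derivative -/
noncomputable def GD (r β x : ℝ) : ℝ :=
  FH r β x - ((1 - β) * (x * ((1 + β) * x - 2 * r)) * KK r β x +
      (1 - β) * (x ^ 2 * ((1 + β) * x / 3 - r)) *
        (KK r β x * (-(x / 2) + β * (r - β * x) + TT r x)))

lemma GG_deriv {r β a : ℝ} (ha2 : a < 2 * r) : HasDerivAt (GG r β) (GD r β a) a := by
  have h1 : HasDerivAt (fun x => ∫ a in (0:ℝ)..x, FH r β a) (FH r β a) a :=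
    intervalIntegral.integral_hasDerivAt_right ((FH_cont r β).intervalIntegrable _ _)
      ((FH_cont r β).stronglyMeasurableAtFilter _ _) (FH_cont r β).continuousAt
  have h2 : HasDerivAt (fun x : ℝ => (1 - β) * (x ^ 2 * ((1 + β) * x / 3 - r)))
      ((1 - β) * (a * ((1 + β) * a - 2 * r))) a := by
    have h3 : HasDerivAt (fun x : ℝ => (1 + β) * x / 3 - r) ((1 + β) / 3) a := by
      have := (((hasDerivAt_id a).const_mul (1 + β)).div_const 3).sub_const r
      simpa using this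
    have h4 := ((hasDerivAt_pow 2 a).fun_mul h3).const_mul (1 - β)
    refine h4.congr_deriv ?_
    push_cast
    ring
  have h5 := KK_deriv (r := r) (β := β) (a := a) ha2
  exact h1.sub (h2.mul h5)

lemma GD_aux {r β a : ℝ} (ha2 : a < 2 * r) :
    GD r β a = a * (β * fL r (β * a) * W (r - a) - KK r β a * (β * (2 * r - β * a) *
        (1 + 2 / 3 * (1 - β) * a * (r - (1 + β) * a / 4)))) +
      (1 - β) * KK r β a * a ^ 2 * (2 / 3 * β * (2 * r - β * a) *
        (r - (1 + β) * a / 4) + ((1 + β) * a / 3 - r) * (a / 2 - TT r a - β * (r - β * a))) := by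
  have h3 : fL r a * W (r - β * a) = KK r β a * (2 * r - a) := by
    unfold KK
    rw [div_mul_cancel₀]
    linarith
  unfold GD FH
  rw [h3]
  ring

lemma GD_nonneg {r β a : ℝ} (hβ : 7 / 10 ≤ β) (hβ1 : β ≤ 1) (ha : 0 ≤ a) (ha2 : a < 2 * r) :
    0 ≤ GD r β a := by
  have hT := TT_bounds ha2
  have h1 := key1 (r := r) (a := a) (by linarith : (0:ℝ) ≤ β) hβ1 ha ha2
  have h2 := key3 hβ hβ1 ha2 hT.1 hT.2
  have h4 := KK_nonneg (r := r) (β := β) ha2
  have h5 : 0 ≤ (1 - β) * KK r β a * a ^ 2 * (2 / 3 * β * (2 * r - β * a) *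
      (r - (1 + β) * a / 4) + ((1 + β) * a / 3 - r) * (a / 2 - TT r a - β * (r - β * a))) := by
    have : 0 ≤ 1 - β := by linarith
    positivity
  rw [GD_aux ha2]
  exact add_nonneg (mul_nonneg ha (by linarith)) h5

lemma GD_pos {r β a : ℝ} (hβ : 7 / 10 ≤ β) (hβ1 : β < 1) (ha : 0 < a) (ha2 : a < 2 * r) :
    0 < GD r β a := by
  have hT := TT_bounds ha2
  have h1 := key1s (r := r) (a := a) (by linarith : (0:ℝ) < β) hβ1 ha ha2
  have h2 := key3 hβ hβ1.le ha2 hT.1 hT.2
  have h4 := KK_nonneg (r := r) (β := β) ha2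
  have h5 : 0 ≤ (1 - β) * KK r β a * a ^ 2 * (2 / 3 * β * (2 * r - β * a) *
      (r - (1 + β) * a / 4) + ((1 + β) * a / 3 - r) * (a / 2 - TT r a - β * (r - β * a))) := by
    have : 0 ≤ 1 - β := by linarith
    positivity
  rw [GD_aux ha2]
  exact add_pos_of_pos_of_nonneg (mul_pos ha (by linarith)) h5

lemma GG_pos {r β : ℝ} (hr : 0 < r) (hβ : 7 / 10 ≤ β) (hβ1 : β < 1) : 0 < GG r β r := by
  have hm : StrictMonoOn (GG r β) (Icc 0 r) := by
    refine strictMonoOn_of_deriv_pos (convex_Icc 0 r)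
      (fun x hx => (GG_deriv (by linarith [hx.2])).continuousAt.continuousWithinAt) ?_
    intro x hx
    rw [interior_Icc] at hx
    rw [(GG_deriv (by linarith [hx.2])).deriv]
    exact GD_pos hβ hβ1 hx.1 (by linarith [hx.2])
  have h := hm (left_mem_Icc.2 hr.le) (right_mem_Icc.2 hr.le) hr
  have h0 : GG r β 0 = 0 := by
    unfold GG
    rw [intervalIntegral.integral_same]
    ring
  rwa [h0] at h

theorem s_Hs : Pool.Agent.H770.GS.S_Hs := by
  intro r β hr hβ2 hβ0 hβ1
  have hβ : 7 / 10 ≤ β := by nlinarith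
  have hlim : Tendsto (fun x => ∫ a in (0:ℝ)..x, FH r β a) (𝓝[<] (2 * r))
      (𝓝 (∫ a in (0:ℝ)..(2 * r), FH r β a)) := by
    have h1 : Continuous fun x => ∫ a in (0:ℝ)..x, FH r β a :=
      intervalIntegral.continuous_primitive (fun a b => (FH_cont r β).intervalIntegrable a b) 0
    exact (h1.tendsto (2 * r)).mono_left nhdsWithin_le_nhds
  have hne : (𝓝[<] (2 * r)).NeBot := inferInstance
  show 0 < ∫ a in (0:ℝ)..(2 * r), FH r β a
  refine lt_of_lt_of_le (GG_pos hr hβ hβ1) (ge_of_tendsto hlim ?_)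
  have h2 : 3 * r / (1 + β) < 2 * r := by
    rw [div_lt_iff₀ (by linarith)]
    nlinarith
  have h2' : r ≤ 3 * r / (1 + β) := by
    rw [le_div_iff₀ (by linarith)]
    nlinarith
  filter_upwards [Ioo_mem_nhdsLT h2] with x hx
  have hxr : r ≤ x := h2'.trans hx.1.le
  have h3 : GG r β r ≤ GG r β x :=
    mono_aux (f := GG r β) (f' := GD r β) hxr
      (fun a ha => GG_deriv (by linarith [ha.2, hx.2]))
      (fun a ha => GD_nonneg hβ hβ1.le (by linarith [ha.1]) (by linarith [ha.2, hx.2]))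
  have h4 : 0 ≤ (1 + β) * x / 3 - r := by
    have := hx.1
    rw [div_lt_iff₀ (by linarith)] at this
    linarith
  have h5 := KK_nonneg (r := r) (β := β) hx.2
  have h6 : 0 ≤ 1 - β := by linarith
  have h7 : 0 ≤ (1 - β) * (x ^ 2 * ((1 + β) * x / 3 - r)) * KK r β x := by positivity
  have h8 : GG r β x = (∫ a in (0:ℝ)..x, FH r β a) -
      (1 - β) * (x ^ 2 * ((1 + β) * x / 3 - r)) * KK r β x := rfl
  linarith

end Pool.Agent.H396.UQ19
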